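import Mathlib
import Pool.Agent.Lib.MP_6f6997_an.DefsS
import Pool.Agent.Lib.MP_6f6997_an.Trans
import Pool.Agent.Lib.MP_6f6997_an.High

/-!
# MP_6f6997_an: the inner inequality does not imply the outer inequality

For every `1 < p ≤ ∞`, `p ≠ 2`, and for real and for complex scalars there is a Banach space `X`
which satisfies the inner inequality for `(g_p, I_p, lam)` with some constant `lam ≥ 1` but which
does not have the `lam'`-bounded approximation property of order `p` for any constant `lam'`.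

The case `1 < p < 2` is `separates_low` (file `Low.lean`), the case `2 < p ≤ ∞` is `separates_high`
(file `High.lean`).
-/

open MeasureTheory ENNReal

namespace Pool.Agent.Results.MP_6f6997_an.InnerNotOuter

theorem result (𝕜 : Type) [RCLike 𝕜] (p q : ℝ≥0∞) [Fact (1 ≤ p)] (hpq : p.HolderConjugate q)
    (h1 : 1 < p) (h2 : p ≠ 2) :
    ∃ (X : Type) (_ : NormedAddCommGroup X) (_ : NormedSpace 𝕜 X) (_ : CompleteSpace X) (lam : ℝ),
      1 ≤ lam ∧ BapOrd.Inner 𝕜 p q lam X ∧ ∀ lam' : ℝ, ¬ BapOrd.BAPp 𝕜 p q lam' X := by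
  have : Fact (1 ≤ q) := ⟨hpq.symm.one_le⟩
  have hsep : MP6f.Separates 𝕜 p q := by
    rcases lt_or_gt_of_ne h2 with h | h
    · exact MP6f.separates_low 𝕜 p q h1 h
    · exact MP6f.separates_high 𝕜 p q h
  obtain ⟨X, i1, i2, i3, lam, hlam, hin, hout⟩ := hsep
  exact ⟨X, i1, i2, i3, lam, hlam, MP6f.inner_trans hin,
    fun lam' hb => hout lam' (MP6f.bapp_trans hb)⟩

end Pool.Agent.Results.MP_6f6997_an.InnerNotOuter
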